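import Pool.Agent.W719.AX.Gen

/-!
# Project AX (helper719): bounded coefficients, products, analyticity of asymptotic expansions
-/

set_option autoImplicit false

namespace Pool.Agent.W303.AX

open Finset Filter Topology Metric
open Pool.Agent.W711.HT Pool.Agent.W719.AX
open scoped Real

theorem uxbd : S_UXBD := by
  intro E Y A S h k
  obtain ⟨C1, h1⟩ := h k
  obtain ⟨C2, h2⟩ := h (k + 1)
  obtain ⟨N, hN1, hN2, hN⟩ := (h1.and (h2.and (eventually_ge_atTop 1))).exists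
  refine ⟨(N : ℝ) ^ k * (C1 / (N : ℝ) ^ k + C2 / (N : ℝ) ^ (k + 1)), fun p hp => ?_⟩
  have a1 := hN1 p hp
  have a2 := hN2 p hp
  have hNpos : (0 : ℝ) < N := by exact_mod_cast hN
  have hNk : (0 : ℝ) < (N : ℝ) ^ k := pow_pos hNpos k
  have hNc : (N : ℂ) ^ k ≠ 0 := pow_ne_zero _ (by exact_mod_cast hNpos.ne')
  have e : A k p = (N : ℂ) ^ k * ((Y N p - ∑ j ∈ range k, A j p / (N : ℂ) ^ j) -
      (Y N p - ∑ j ∈ range (k + 1), A j p / (N : ℂ) ^ j)) := by
    rw [Finset.sum_range_succ]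
    field_simp
    ring
  rw [e, norm_mul, norm_pow, Complex.norm_natCast]
  refine mul_le_mul_of_nonneg_left ?_ hNk.le
  exact (norm_sub_le _ _).trans (add_le_add a1 a2)

theorem uxbd' {E : Type} {Y : ℕ → E → ℂ} {A : ℕ → E → ℂ} {S : Set E} (h : UX Y A S) (k : ℕ) :
    ∃ C : ℝ, 0 ≤ C ∧ ∀ p ∈ S, ‖A k p‖ ≤ C := by
  obtain ⟨C, hC⟩ := uxbd E Y A S h k
  exact ⟨max C 0, le_max_right _ _, fun p hp => (hC p hp).trans (le_max_left _ _)⟩

/-- partial sums are bounded -/
theorem uxpart {E : Type} {A : ℕ → E → ℂ} {S : Set E} {a : ℕ → ℝ} (ha0 : ∀ k, 0 ≤ a k)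
    (ha : ∀ k, ∀ p ∈ S, ‖A k p‖ ≤ a k) (K N : ℕ) (hN : 1 ≤ N) (p : E) (hp : p ∈ S) :
    ‖∑ k ∈ range K, A k p / (N : ℂ) ^ k‖ ≤ ∑ k ∈ range K, a k := by
  refine (norm_sum_le _ _).trans (Finset.sum_le_sum fun k _ => ?_)
  rw [norm_div, norm_pow, Complex.norm_natCast]
  have h1 : (1 : ℝ) ≤ (N : ℝ) ^ k := one_le_pow₀ (by exact_mod_cast hN)
  exact (div_le_self (norm_nonneg _) h1).trans (ha k p hp)

theorem uxmul : S_UXMUL := by
  intro E Y Z A B S hY hZ K
  choose a ha0 ha using fun k => uxbd' hY k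
  choose b hb0 hb using fun k => uxbd' hZ k
  obtain ⟨C1, h1⟩ := hY K
  obtain ⟨C2, h2⟩ := hZ K
  set SA : ℝ := ∑ k ∈ range K, a k with hSA
  set SB : ℝ := ∑ k ∈ range K, b k with hSB
  have hSA0 : 0 ≤ SA := Finset.sum_nonneg fun k _ => ha0 k
  have hSB0 : 0 ≤ SB := Finset.sum_nonneg fun k _ => hb0 k
  refine ⟨|C1| * (SB + |C2|) + SA * |C2| +
    ∑ i ∈ range K, ∑ j ∈ Ico (K - i) K, a i * b j, ?_⟩
  filter_upwards [h1, h2, eventually_ge_atTop 1] with N hN1 hN2 hN p hp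
  have a1 := hN1 p hp
  have a2 := hN2 p hp
  have hNpos : (0 : ℝ) < N := by exact_mod_cast hN
  have hN1' : (1 : ℝ) ≤ N := by exact_mod_cast hN
  have hNK : (0 : ℝ) < (N : ℝ) ^ K := pow_pos hNpos K
  have hNK1 : (1 : ℝ) ≤ (N : ℝ) ^ K := one_le_pow₀ hN1'
  have hNc : (N : ℂ) ≠ 0 := by exact_mod_cast hNpos.ne'
  set P : ℂ := ∑ k ∈ range K, A k p / (N : ℂ) ^ k with hP
  set Q : ℂ := ∑ k ∈ range K, B k p / (N : ℂ) ^ k with hQ
  have hPb : ‖P‖ ≤ SA := uxpart ha0 ha K N hN p hp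
  have hQb : ‖Q‖ ≤ SB := uxpart hb0 hb K N hN p hp
  have a1' : ‖Y N p - P‖ ≤ |C1| / (N : ℝ) ^ K :=
    a1.trans (div_le_div_of_nonneg_right (le_abs_self _) hNK.le)
  have a2' : ‖Z N p - Q‖ ≤ |C2| / (N : ℝ) ^ K :=
    a2.trans (div_le_div_of_nonneg_right (le_abs_self _) hNK.le)
  have hZb : ‖Z N p‖ ≤ SB + |C2| := by
    have : Z N p = Q + (Z N p - Q) := by ring
    rw [this]
    refine (norm_add_le _ _).trans (add_le_add hQb (a2'.trans ?_))
    exact div_le_self (abs_nonneg _) hNK1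
  -- the Cauchy product
  have hcv : P * Q - ∑ k ∈ range K, cv A B k p / (N : ℂ) ^ k =
      ∑ i ∈ range K, ∑ j ∈ Ico (K - i) K, A i p * B j p / (N : ℂ) ^ (i + j) := by
    have e1 : P * Q = ∑ i ∈ range K, ∑ j ∈ range K, A i p * B j p / (N : ℂ) ^ (i + j) := by
      rw [hP, hQ, Finset.sum_mul_sum]
      refine Finset.sum_congr rfl fun i _ => Finset.sum_congr rfl fun j _ => ?_
      rw [pow_add]
      field_simp
    have e2 : ∑ k ∈ range K, cv A B k p / (N : ℂ) ^ k =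
        ∑ i ∈ range K, ∑ j ∈ range (K - i), A i p * B j p / (N : ℂ) ^ (i + j) := by
      rw [← Finset.sum_range_diag_flip K (fun i j => A i p * B j p / (N : ℂ) ^ (i + j))]
      refine Finset.sum_congr rfl fun k _ => ?_
      unfold cv
      rw [Finset.sum_div]
      refine Finset.sum_congr rfl fun i hi => ?_
      have hik : i + (k - i) = k := by
        have := Finset.mem_range.mp hi
        omega
      rw [hik]
    rw [e1, e2, ← Finset.sum_sub_distrib]
    refine Finset.sum_congr rfl fun i _ => ?_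
    rw [Finset.sum_Ico_eq_sub _ (Nat.sub_le K i)]
  have hrest : ‖∑ i ∈ range K, ∑ j ∈ Ico (K - i) K, A i p * B j p / (N : ℂ) ^ (i + j)‖ ≤
      (∑ i ∈ range K, ∑ j ∈ Ico (K - i) K, a i * b j) / (N : ℝ) ^ K := by
    rw [Finset.sum_div]
    refine (norm_sum_le _ _).trans (Finset.sum_le_sum fun i hi => ?_)
    rw [Finset.sum_div]
    refine (norm_sum_le _ _).trans (Finset.sum_le_sum fun j hj => ?_)
    rw [norm_div, norm_mul, norm_pow, Complex.norm_natCast]
    have hij : K ≤ i + j := by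
      have := (Finset.mem_Ico.mp hj).1
      omega
    have hpow : (N : ℝ) ^ K ≤ (N : ℝ) ^ (i + j) := pow_le_pow_right₀ hN1' hij
    exact div_le_div₀ (mul_nonneg (ha0 i) (hb0 j))
      (mul_le_mul (ha i p hp) (hb j p hp) (norm_nonneg _) (ha0 i)) hNK hpow
  have e : Y N p * Z N p - ∑ k ∈ range K, cv A B k p / (N : ℂ) ^ k =
      (Y N p - P) * Z N p + P * (Z N p - Q) +
        (P * Q - ∑ k ∈ range K, cv A B k p / (N : ℂ) ^ k) := by ring
  have g1 : ‖(Y N p - P) * Z N p‖ ≤ |C1| / (N : ℝ) ^ K * (SB + |C2|) := by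
    rw [norm_mul]
    exact mul_le_mul a1' hZb (norm_nonneg _) (by positivity)
  have g2 : ‖P * (Z N p - Q)‖ ≤ SA * (|C2| / (N : ℝ) ^ K) := by
    rw [norm_mul]
    exact mul_le_mul hPb a2' (norm_nonneg _) hSA0
  calc ‖Y N p * Z N p - ∑ k ∈ range K, cv A B k p / (N : ℂ) ^ k‖
      ≤ |C1| / (N : ℝ) ^ K * (SB + |C2|) + SA * (|C2| / (N : ℝ) ^ K) +
        (∑ i ∈ range K, ∑ j ∈ Ico (K - i) K, a i * b j) / (N : ℝ) ^ K := by
        rw [e]
        refine (norm_add_le _ _).trans (add_le_add ((norm_add_le _ _).trans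
          (add_le_add g1 g2)) ?_)
        rw [hcv]
        exact hrest
    _ = _ := by ring

theorem uxan : S_UXAN := by
  intro Y A U hU hY h k
  induction k using Nat.strong_induction_on with
  | _ k ih =>
    obtain ⟨C, hC⟩ := h (k + 1)
    have hlim : TendstoUniformlyOn
        (fun (N : ℕ) (z : ℂ) => (N : ℂ) ^ k * (Y N z - ∑ j ∈ range k, A j z / (N : ℂ) ^ j))
        (A k) atTop U := by
      rw [Metric.tendstoUniformlyOn_iff]
      intro ε hε
      have hC' : ∀ᶠ N : ℕ in atTop, |C| / (N : ℝ) < ε := by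
        have : Tendsto (fun N : ℕ => |C| / (N : ℝ)) atTop (𝓝 0) :=
          tendsto_const_div_atTop_nhds_zero_nat _
        exact this.eventually_lt_const hε
      filter_upwards [hC, hC', eventually_ge_atTop 1] with N hN1 hN2 hN z hz
      have hNpos : (0 : ℝ) < N := by exact_mod_cast hN
      have hNc : (N : ℂ) ≠ 0 := by exact_mod_cast hNpos.ne'
      have e : A k z - (N : ℂ) ^ k * (Y N z - ∑ j ∈ range k, A j z / (N : ℂ) ^ j) =
          -((N : ℂ) ^ k * (Y N z - ∑ j ∈ range (k + 1), A j z / (N : ℂ) ^ j)) := by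
        rw [Finset.sum_range_succ]
        field_simp
        ring
      rw [dist_eq_norm, e, norm_neg, norm_mul, norm_pow, Complex.norm_natCast]
      have a1 := hN1 z hz
      calc (N : ℝ) ^ k * ‖Y N z - ∑ j ∈ range (k + 1), A j z / (N : ℂ) ^ j‖
          ≤ (N : ℝ) ^ k * (C / (N : ℝ) ^ (k + 1)) :=
            mul_le_mul_of_nonneg_left a1 (pow_pos hNpos k).le
        _ = C / N := by
            rw [pow_succ]
            field_simp
        _ ≤ |C| / N := div_le_div_of_nonneg_right (le_abs_self _) hNpos.le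
        _ < ε := hN2
    refine hlim.tendstoLocallyUniformlyOn.differentiableOn ?_ hU
    filter_upwards [hY] with N hN
    refine (hN.sub (DifferentiableOn.fun_sum fun j hj => ?_)).const_mul _
    exact (ih j (Finset.mem_range.mp hj)).div_const _

end Pool.Agent.W303.AX
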